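import Pool.Agent.helper2.BB.Asm

/-!
# MP_b9b9c0_an, Q2: the Bieberbach type bound `|V(P_m)| ≤ m` on `S^0(B^n)` fails for every `m ≥ 3` and every `n ≥ 2`

`inner ℂ z x` is the problem's `⟨x, z⟩`; `ParamRep (id) f` says `f ∈ S^0(B^n) = S_I^0(B^n)`
(definitions of the hand-in SharpP2, `Pool/Agent/helper37/PR/Defs.lean`);
`(1/m!) iteratedFDeriv ℂ m f 0 (z,...,z)` is `P_m(z)`.
-/

namespace Pool.Agent.Results.MP_b9b9c0_an.BieberbachFails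

open Pool.Agent.helper37.PR

theorem result (n m : ℕ) (hn : 2 ≤ n) (hm : 3 ≤ m) :
    ∃ f : EuclideanSpace ℂ (Fin n) → EuclideanSpace ℂ (Fin n),
      ParamRep (ContinuousLinearMap.id ℂ (EuclideanSpace ℂ (Fin n))) f ∧
      ∃ z : EuclideanSpace ℂ (Fin n), ‖z‖ = 1 ∧
        (m : ℝ) < ‖(inner ℂ z (((m.factorial : ℂ)⁻¹) • iteratedFDeriv ℂ m f 0 (fun _ => z)) : ℂ)‖ :=
  BB.Asm_ZZ n m hn hm

end Pool.Agent.Results.MP_b9b9c0_an.BieberbachFails
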