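import Pool.Agent.helper29.GR.Sharp

/-!
# The order of growth of the mappings in `S_A^0(𝔹ⁿ)` for normal `A`

`IsCara`, `IsHerglotz`, `IsLoewner`, `ParamRep` (file `helper37/PR/Defs.lean`) are the class `𝒩_A`,
the Herglotz vector fields, the solutions of the Loewner equation and the family `S_A^0`;
`mNum A = m(A)` and `kPlus A = k₊(A)` (file `helper37/PR/Normal.lean`); `inner ℂ y x` is `⟨x, y⟩`.
-/

set_option autoImplicit false

namespace Pool.Agent.Results.MP_b9b9c0_an.GrowthOrder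

open Pool.Agent.helper37.PR Pool.Agent.helper29.GR

/-- the values `‖f(z)‖`, `f ∈ S_A^0`, `‖z‖ = r` -/
def Vals {n : ℕ} (A : EuclideanSpace ℂ (Fin n) →L[ℂ] EuclideanSpace ℂ (Fin n)) (r : ℝ) : Set ℝ :=
  {x : ℝ | ∃ f : EuclideanSpace ℂ (Fin n) → EuclideanSpace ℂ (Fin n), ParamRep A f ∧
    ∃ z : EuclideanSpace ℂ (Fin n), ‖z‖ = r ∧ x = ‖f z‖}

/-- `L_A(r)` -/
noncomputable def LA {n : ℕ} (A : EuclideanSpace ℂ (Fin n) →L[ℂ] EuclideanSpace ℂ (Fin n))
    (r : ℝ) : ℝ := sSup (Vals A r)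

/-- `ℓ_A(r)` -/
noncomputable def lA {n : ℕ} (A : EuclideanSpace ℂ (Fin n) →L[ℂ] EuclideanSpace ℂ (Fin n))
    (r : ℝ) : ℝ := sInf (Vals A r)

/-- For every `n ≥ 2` and every normal `A` with `k₊(A) < 2 m(A)`, `m = m(A)`, `k = k₊(A)`:
`m > 0` and there are `c, C > 0` such that for all `0 < r < 1` the set of the values `‖f(z)‖` is
nonempty and bounded, `c r (1-r)^(-2k/m) ≤ L_A(r) ≤ C r (1-r)^(-2k/m)` and `c r ≤ ℓ_A(r) ≤ r`. -/
theorem result (n : ℕ) (hn : 2 ≤ n)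
    (A : EuclideanSpace ℂ (Fin n) →L[ℂ] EuclideanSpace ℂ (Fin n)) (hA : IsStarNormal A)
    (hk : kPlus A < 2 * mNum A) :
    0 < mNum A ∧
    (∃ c C : ℝ, 0 < c ∧ 0 < C ∧ ∀ r : ℝ, 0 < r → r < 1 →
      (Vals A r).Nonempty ∧ BddAbove (Vals A r) ∧ BddBelow (Vals A r) ∧
      c * (r * (1 - r) ^ (-(2 * kPlus A / mNum A))) ≤ LA A r ∧
      LA A r ≤ C * (r * (1 - r) ^ (-(2 * kPlus A / mNum A))) ∧
      c * r ≤ lA A r ∧ lA A r ≤ r) := by
  have hfr : 2 ≤ Module.finrank ℂ (EuclideanSpace ℂ (Fin n)) := by simpa using hn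
  have hnt : Nontrivial (EuclideanSpace ℂ (Fin n)) :=
    Module.nontrivial_of_finrank_pos (R := ℂ) (by omega)
  have h0 := mNum_pos hA hk
  obtain ⟨hN, e₁, e₂, l₁, l₂, hF⟩ := exists_frame hA hfr h0
  have hmk := hN.m_le_k hF.n1
  have hk0 : 0 < kPlus A := lt_of_lt_of_le h0 hmk
  refine ⟨h0, ?_⟩
  · have hc1 := c1_pos h0 hk0 hk
    have hr1 := rho1_pos A h0 hk
    have hCL := CL_nonneg A hk
    refine ⟨min (c1 (mNum A) (kPlus A)) (rho1 A (mNum A) (kPlus A) / 2),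
      max 1 (CU A (mNum A) (kPlus A)), lt_min hc1 (by positivity),
      lt_of_lt_of_le one_pos (le_max_left _ _), fun r hr hr1' => ?_⟩
    have hX : 0 ≤ r * (1 - r) ^ (-(2 * kPlus A / mNum A)) := by
      have : 0 < 1 - r := by linarith
      positivity
    obtain ⟨f, hf, hfl⟩ := growth_sharp hN hk hA hF hr hr1'
    obtain ⟨g, hg, hgn, hgl⟩ := small_sharp hN hk hF hr
    have hrn : ‖(r : ℂ) • e₂‖ = r := by
      rw [norm_smul, hF.n2, Complex.norm_real, Real.norm_eq_abs, abs_of_pos hr, mul_one]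
    have hup : ∀ x ∈ Vals A r, x ≤ max 1 (CU A (mNum A) (kPlus A)) *
        (r * (1 - r) ^ (-(2 * kPlus A / mNum A))) := by
      rintro x ⟨f, hf, z, hz, rfl⟩
      have h1 := growth_upper hN hk0.le hk hf (z := z) (by
        rw [mem_ball_zero_iff, hz]; exact hr1')
      rw [hz] at h1
      exact h1.trans (mul_le_mul_of_nonneg_right (le_max_right _ _) hX)
    have hlow : ∀ x ∈ Vals A r, min (c1 (mNum A) (kPlus A)) (rho1 A (mNum A) (kPlus A) / 2) * r ≤
        x := by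
      rintro x ⟨f, hf, z, hz, rfl⟩
      have h1 := growth_lower hN hk hf (z := z) (by
        rw [mem_ball_zero_iff, hz]; exact hr1')
      rw [hz] at h1
      exact (mul_le_mul_of_nonneg_right (min_le_right _ _) hr.le).trans h1
    have hne : (Vals A r).Nonempty := ⟨_, f, hf, _, hrn, rfl⟩
    have hba : BddAbove (Vals A r) := ⟨_, fun x hx => hup x hx⟩
    have hbb : BddBelow (Vals A r) := ⟨_, fun x hx => hlow x hx⟩
    refine ⟨hne, hba, hbb, ?_, csSup_le hne hup, le_csInf hne hlow, ?_⟩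
    · refine le_trans ?_ (le_csSup hba ⟨f, hf, _, hrn, rfl⟩)
      exact (mul_le_mul_of_nonneg_right (min_le_left _ _) hX).trans hfl
    · exact (csInf_le hbb ⟨g, hg, _, hgn, rfl⟩).trans (le_of_eq hgl)

end Pool.Agent.Results.MP_b9b9c0_an.GrowthOrder
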