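import Pool.Agent.helper64.QF.All

/-!
# The sharp bounds of the second coefficient of `S_A^0(𝔹ⁿ)`, for every `A` in the class

`IsCara`, `IsHerglotz`, `IsLoewner`, `ParamRep`, `P2` (file `helper37/PR/Defs.lean`) are the class
`𝒩_A`, the Herglotz vector fields, the solutions of the Loewner equation, the family `S_A^0` and the
quadratic part `P₂`; `mNum A = m(A)` and `kPlus A = k₊(A)`; `inner ℂ y x` is `⟨x, y⟩`.

`sig A U V = σ_A(U, V)` is the infimum of `Re⟨AU,U⟩/b + b Re⟨AV,V⟩/a²` over `a, b > 0` with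
`a‖U‖ ≤ 1`, `b‖V‖ ≤ 1`, `a²‖U‖² + b²‖V‖² ≤ 1 + a²b²|⟨U,V⟩|²`, `sigt A U V t` is
`σ_A(e^{-tA}U, e^{tA*}V)` and `JA A U V` is its integral over `t > 0`.
-/

set_option autoImplicit false

namespace Pool.Agent.Results.MP_b9b9c0_an.SecondCoefficient

open MeasureTheory Set
open Pool.Agent.helper37.PR Pool.Agent.helper64.QF

/-- For every `A` with `k₊(A) < 2 m(A)` and all `U, V`, the supremum of `|⟨P₂(U), V⟩|` over
`f ∈ S_A^0(𝔹ⁿ)` is `J_A(U, V)`; hence the suprema of `‖P₂‖` and of `|V(P₂)|` over `S_A^0(𝔹ⁿ)` are the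
suprema of `J_A(U, V)` over unit vectors `U, V` and of `J_A(U, U)` over unit vectors `U`. -/
theorem result : ∀ (n : ℕ) (A : EuclideanSpace ℂ (Fin n) →L[ℂ] EuclideanSpace ℂ (Fin n)),
    kPlus A < 2 * mNum A →
    (∀ U V : EuclideanSpace ℂ (Fin n), IntegrableOn (sigt A U V) (Ioi 0) ∧
      IsLUB {x : ℝ | ∃ f, ParamRep A f ∧ x = ‖(inner ℂ V (P2 f U) : ℂ)‖} (JA A U V)) ∧
    IsLUB {x : ℝ | ∃ f, ParamRep A f ∧
        ∃ z : EuclideanSpace ℂ (Fin n), ‖z‖ = 1 ∧ x = ‖P2 f z‖}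
      (sSup {y : ℝ | ∃ U V : EuclideanSpace ℂ (Fin n), ‖U‖ = 1 ∧ ‖V‖ = 1 ∧ y = JA A U V}) ∧
    IsLUB {x : ℝ | ∃ f, ParamRep A f ∧
        ∃ z : EuclideanSpace ℂ (Fin n), ‖z‖ = 1 ∧ x = ‖(inner ℂ z (P2 f z) : ℂ)‖}
      (sSup {y : ℝ | ∃ U : EuclideanSpace ℂ (Fin n), ‖U‖ = 1 ∧ y = JA A U U}) :=
  fun n A hA => res_all n A hA

end Pool.Agent.Results.MP_b9b9c0_an.SecondCoefficient
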