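import Pool.Agent.helper37.PR.Normal

/-!
# The sharp bound of `‖P₂‖` on `S_A^0(𝔹ⁿ)` for normal `A`

`IsCara`, `IsHerglotz`, `IsLoewner`, `ParamRep`, `P2` (file `PR/Defs.lean`) are the class `𝒩_A`,
the Herglotz vector fields, the solutions of the Loewner equation, the family `S_A^0` and the
quadratic part `P₂`; `mNum A = m(A)` and `kPlus A = k₊(A)`; `inner ℂ y x` is `⟨x, y⟩`.
-/

set_option autoImplicit false

namespace Pool.Agent.Results.MP_b9b9c0_an.SharpP2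

open Pool.Agent.helper37.PR

/-- For every normal `A` with `k₊(A) < 2 m(A)` and every `n ≥ 2`,
`max {‖P₂(z)‖ : f ∈ S_A^0(𝔹ⁿ), ‖z‖ = 1} = a₀ / (2 m(A) - k₊(A))`, where
`a₀ = max {a > 0 : k₊(A) x² + m(A) y² - a x y² ≥ 0 for x, y ≥ 0, x² + y² ≤ 1}`
`= 2 m / (√q (1 + q))`, `q = 2 m / (k + 2 m + √(k² + 8 k m))`, `m = m(A)`, `k = k₊(A)`.
In particular the sharp bound of `‖P₂‖` on `S^0(𝔹ⁿ)` is `3 √3 / 2`. -/
theorem result :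
    (∀ (n : ℕ), 2 ≤ n → ∀ A : EuclideanSpace ℂ (Fin n) →L[ℂ] EuclideanSpace ℂ (Fin n),
      IsStarNormal A → kPlus A < 2 * mNum A →
      IsGreatest {a : ℝ | 0 < a ∧ ∀ x y : ℝ, 0 ≤ x → 0 ≤ y → x ^ 2 + y ^ 2 ≤ 1 →
        0 ≤ kPlus A * x ^ 2 + mNum A * y ^ 2 - a * x * y ^ 2} (a0 (mNum A) (kPlus A)) ∧
      IsGreatest {x : ℝ | ∃ f, ParamRep A f ∧ ∃ z, ‖z‖ = 1 ∧ x = ‖P2 f z‖}
        (a0 (mNum A) (kPlus A) / (2 * mNum A - kPlus A))) ∧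
    (∀ (n : ℕ), 2 ≤ n →
      IsGreatest {x : ℝ | ∃ f : EuclideanSpace ℂ (Fin n) → EuclideanSpace ℂ (Fin n),
        ParamRep (ContinuousLinearMap.id ℂ (EuclideanSpace ℂ (Fin n))) f ∧
          ∃ z, ‖z‖ = 1 ∧ x = ‖P2 f z‖} (3 * √3 / 2)) :=
  ⟨fun n hn _ hA hk => sharp_P2 (by simpa using hn) hA hk,
    fun n hn => sharp_P2_id (by simpa using hn)⟩

end Pool.Agent.Results.MP_b9b9c0_an.SharpP2
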